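import Pool.Agent.H.MP_c4f5bb_an.A

set_option autoImplicit false
open Set Metric

namespace Pool.Agent.H.MP_b98aea_an

open Pool.Agent.H.MP_c4f5bb_an (avg avg_near avg_lip sum_ge)

variable {V : Type} [NormedAddCommGroup V] [NormedSpace ℝ V] {Q : ℕ}

def Cn (p : Fin Q → V) (s : ℝ) : Fin Q → Fin Q → Prop :=
  Relation.ReflTransGen fun i j => dist (p i) (p j) ≤ s

omit [NormedSpace ℝ V] in
lemma Cn.map {p q : Fin Q → V} {s t ε : ℝ} (f : Fin Q → Fin Q)
    (hf : ∀ i, dist (p i) (q (f i)) ≤ ε)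
    (hst : s + 2 * ε ≤ t) {i j : Fin Q} (h : Cn p s i j) : Cn q t (f i) (f j) := by
  induction h with
  | refl => exact Relation.ReflTransGen.refl
  | @tail x y _ hxy ih =>
    refine Relation.ReflTransGen.tail ih ?_
    have h1 := dist_triangle4 (q (f x)) (p x) (p y) (q (f y))
    have h2 := hf x
    have h3 := hf y
    rw [dist_comm] at h2
    linarith

omit [NormedSpace ℝ V] in
lemma Cn.dist_le {p : Fin Q → V} {s : ℝ} (hs : 0 ≤ s) {i j : Fin Q} (h : Cn p s i j) :
    dist (p i) (p j) ≤ Q * s := by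
  have h1 : Pool.Agent.H.MP_c4f5bb_an.Conn (range p) s (p i) (p j) := by
    induction h with
    | refl => exact Relation.ReflTransGen.refl
    | @tail x y _ hxy ih =>
      exact Relation.ReflTransGen.tail ih ⟨mem_range_self _, mem_range_self _, hxy⟩
  refine h1.dist_le (finite_range p) ?_ hs (mem_range_self _)
  rw [← image_univ]
  exact (ncard_image_le finite_univ).trans (by simp)

def lev (s : ℝ) (p : Fin Q → V) (i j : Fin Q) : Set ℝ :=
  insert 0 {τ | 0 ≤ τ ∧ τ ≤ 1 ∧ Cn p ((2 - τ) * s) i j}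

noncomputable def phi (s : ℝ) (p : Fin Q → V) (i j : Fin Q) : ℝ := sSup (lev s p i j)

section
omit [NormedSpace ℝ V]

lemma lev_le {s : ℝ} {p : Fin Q → V} {i j : Fin Q} : ∀ τ ∈ lev s p i j, τ ≤ 1 := by
  rintro τ (rfl | h)
  · exact zero_le_one
  · exact h.2.1

lemma lev_bdd (s : ℝ) (p : Fin Q → V) (i j : Fin Q) : BddAbove (lev s p i j) := ⟨1, lev_le⟩

lemma phi_nonneg (s : ℝ) (p : Fin Q → V) (i j : Fin Q) : 0 ≤ phi s p i j :=
  le_csSup (lev_bdd s p i j) (mem_insert _ _)

lemma phi_le (s : ℝ) (p : Fin Q → V) (i j : Fin Q) : phi s p i j ≤ 1 :=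
  csSup_le ⟨0, mem_insert _ _⟩ lev_le

lemma phi_self (s : ℝ) (p : Fin Q → V) (i : Fin Q) : phi s p i i = 1 :=
  le_antisymm (phi_le s p i i) (le_csSup (lev_bdd s p i i)
    (mem_insert_of_mem _ ⟨zero_le_one, le_rfl, Relation.ReflTransGen.refl⟩))

lemma phi_eq {s : ℝ} {p : Fin Q → V} {a b : Fin Q} (hab : dist (p a) (p b) ≤ s) (j : Fin Q) :
    phi s p a j = phi s p b j := by
  have key : ∀ a b, dist (p a) (p b) ≤ s → lev s p b j ⊆ lev s p a j := by
    intro a b hab τ hτ
    rcases hτ with rfl | h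
    · exact mem_insert _ _
    · refine mem_insert_of_mem _ ⟨h.1, h.2.1, Relation.ReflTransGen.head ?_ h.2.2⟩
      have := dist_nonneg.trans hab
      nlinarith [h.2.1]
  unfold phi
  rw [Subset.antisymm (key b a (by rwa [dist_comm])) (key a b hab)]

lemma phi_near {s : ℝ} (h0 : 0 ≤ s) {p : Fin Q → V} {i j : Fin Q}
    (h : phi s p i j ≠ 0) : dist (p i) (p j) ≤ 2 * Q * s := by
  by_contra hc
  apply h
  refine le_antisymm (csSup_le ⟨0, mem_insert _ _⟩ ?_) (phi_nonneg s p i j)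
  rintro τ (rfl | hτ)
  · exact le_rfl
  · exfalso
    apply hc
    have h1 := hτ.2.2.dist_le (mul_nonneg (by linarith [hτ.2.1]) h0)
    refine h1.trans ?_
    have : (2 - τ) * s ≤ 2 * s := by gcongr; linarith [hτ.1]
    calc (Q : ℝ) * ((2 - τ) * s) ≤ Q * (2 * s) := by gcongr
      _ = _ := by ring

lemma phi_lip {p q : Fin Q → V} {s t ε η : ℝ} (f : Fin Q → Fin Q)
    (hf : ∀ i, dist (p i) (q (f i)) ≤ ε)
    (hε : 0 ≤ ε) (hη : 0 ≤ η) (h1 : s ≤ t + ε) (h2 : 4 * ε ≤ η * t)
    (i j : Fin Q) : phi s p i j ≤ phi t q (f i) (f j) + η := by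
  refine csSup_le ⟨0, mem_insert _ _⟩ ?_
  have h0 := phi_nonneg t q (f i) (f j)
  rintro τ (rfl | hτ)
  · linarith
  · rcases le_total τ η with h | h
    · linarith
    · have : τ - η ≤ phi t q (f i) (f j) := by
        refine le_csSup (lev_bdd _ _ _ _) (mem_insert_of_mem _ ⟨by linarith,
          by linarith [hτ.2.1], hτ.2.2.map f hf ?_⟩)
        have : (2 - τ) * s ≤ (2 - τ) * (t + ε) := by
          gcongr; linarith [hτ.2.1]
        nlinarith [hτ.1]
      linarith

lemma phi_perm (s : ℝ) (p : Fin Q → V) (σ : Equiv.Perm (Fin Q)) (i j : Fin Q) :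
    phi s (p ∘ σ) i j = phi s p (σ i) (σ j) := by
  have h1 := phi_lip (p := p ∘ σ) (q := p) (s := s) (t := s) (ε := 0) (η := 0) σ (by simp) le_rfl
    le_rfl (by simp) (by simp) i j
  have h2 := phi_lip (p := p) (q := p ∘ σ) (s := s) (t := s) (ε := 0) (η := 0) σ.symm (by simp)
    le_rfl le_rfl (by simp) (by simp) (σ i) (σ j)
  simp only [Equiv.symm_apply_apply, add_zero] at h1 h2
  exact le_antisymm h1 h2

lemma phi_sum (s : ℝ) (p : Fin Q → V) (i : Fin Q) : 1 ≤ ∑ k, phi s p i k :=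
  sum_ge _ _ (fun _ _ => phi_nonneg _ _ _ _) (Finset.mem_univ i) (phi_self s p i)

end

noncomputable def col (s : ℝ) (p : Fin Q → V) (i : Fin Q) : V := avg Finset.univ (phi s p i) p

lemma col_perm (s : ℝ) (p : Fin Q → V) (σ : Equiv.Perm (Fin Q)) :
    col s (p ∘ σ) = col s p ∘ σ := by
  funext i
  simp only [col, avg, phi_perm, Function.comp]
  rw [Equiv.sum_comp σ (fun k => phi s p (σ i) k),
    Equiv.sum_comp σ (fun j => (phi s p (σ i) j / ∑ k, phi s p (σ i) k) • p j)]

lemma col_near {s : ℝ} (hs : 0 ≤ s) (p : Fin Q → V) : dist (col s p) p ≤ 2 * Q * s := by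
  refine (dist_pi_le_iff (by positivity)).2 fun i => ?_
  rw [dist_eq_norm]
  refine avg_near Finset.univ (phi s p i) p (fun _ _ => phi_nonneg _ _ _ _) (phi_sum s p i) _ _
    fun j _ h => ?_
  rw [← dist_eq_norm, dist_comm]
  exact phi_near hs h

lemma col_coh {s : ℝ} (p0 q : Fin Q → V) (σ τ : Equiv.Perm (Fin Q))
    (h1 : dist p0 (q ∘ σ) ≤ s / 2) (h2 : dist p0 (q ∘ τ) ≤ s / 2) :
    col s (q ∘ σ) = col s (q ∘ τ) := by
  rw [col_perm, col_perm]
  funext i
  have a1 := (dist_le_pi_dist p0 (q ∘ σ) i).trans h1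
  have a2 := (dist_le_pi_dist p0 (q ∘ τ) i).trans h2
  have a3 := dist_triangle_left (q (σ i)) (q (τ i)) (p0 i)
  simp only [Function.comp] at a1 a2 ⊢
  unfold col
  congr 1
  funext j
  exact phi_eq (by linarith) j

noncomputable def KK (Q : ℕ) : ℝ := 1 + 10 * Q + 8 * Q * (Q + 1) * (3 * Q + 1)

lemma KK_pos (Q : ℕ) : 0 < KK Q := by unfold KK; positivity

lemma col_lip {s t ε : ℝ} (hs : 0 < s) (ht : 0 < t) (p q : Fin Q → V) (hpq : dist p q ≤ ε)
    (h1 : s ≤ t + ε) (h2 : t ≤ s + ε) : dist (col s p) (col t q) ≤ KK Q * ε := by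
  have ε0 : 0 ≤ ε := dist_nonneg.trans hpq
  have Q0 : (0 : ℝ) ≤ Q := Nat.cast_nonneg Q
  have K1 : 0 ≤ 8 * (Q : ℝ) * (Q + 1) * (3 * Q + 1) * ε := by positivity
  rcases le_or_gt (s / 2) ε with h | h
  · have a1 := col_near hs.le p
    have a2 := col_near ht.le q
    have a3 := dist_triangle4 (col s p) p q (col t q)
    rw [dist_comm q] at a3
    have a4 : 2 * Q * s ≤ 2 * Q * (2 * ε) := by gcongr; linarith
    have a5 : 2 * Q * t ≤ 2 * Q * (3 * ε) := by gcongr; linarith
    unfold KK; nlinarith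
  · refine (dist_pi_le_iff (mul_nonneg (KK_pos Q).le ε0)).2 fun i => ?_
    have η0 : 0 ≤ 8 * ε / s := by positivity
    have e1 : 8 * ε / s * s = 8 * ε := div_mul_cancel₀ _ hs.ne'
    have hd : ∀ j, dist (p j) (q j) ≤ ε := fun j => (dist_le_pi_dist p q j).trans hpq
    have lip : ∀ j, |phi s p i j - phi t q i j| ≤ 8 * ε / s := by
      intro j
      have b1 := phi_lip (p := p) (q := q) id hd ε0 η0 h1 (by
        have : 8 * ε / s * (s / 2) ≤ 8 * ε / s * t := by gcongr; linarith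
        linarith) i j
      have b2 := phi_lip (p := q) (q := p) id (fun j => by rw [dist_comm]; exact hd j) ε0 η0 h2
        (by rw [e1]; linarith) i j
      simp only [id] at b1 b2
      rw [abs_le]; constructor <;> linarith
    have := avg_lip Finset.univ (phi s p i) (phi t q i) p q (fun _ _ => phi_nonneg _ _ _ _)
      (fun _ _ => phi_le _ _ _ _) (phi_sum s p i) (phi_sum t q i) (8 * ε / s) ε η0
      (fun j _ => lip j) (fun j _ => by rw [← dist_eq_norm]; exact hd j) (p i) ((3 * Q + 1) * s)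
      (by positivity) (fun j _ hj => by
        rw [← dist_eq_norm, dist_comm]
        rcases hj with hj | hj
        · have := phi_near hs.le hj
          nlinarith
        · have c1 := phi_near ht.le hj
          have c2 := dist_triangle4 (p i) (q i) (q j) (p j)
          have c3 := hd i
          have c4 := hd j
          rw [dist_comm] at c4
          have c5 : 2 * Q * t ≤ 2 * Q * (3 / 2 * s) := by gcongr; linarith
          nlinarith)
    rw [dist_eq_norm]
    refine this.trans ?_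
    rw [Finset.card_univ, Fintype.card_fin]
    have e : (Q : ℝ) * ((Q + 1) * (8 * ε / s) * ((3 * Q + 1) * s)) =
        8 * Q * (Q + 1) * (3 * Q + 1) * ε := by field_simp
    rw [e]; unfold KK; nlinarith

end Pool.Agent.H.MP_b98aea_an
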