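import Pool.Agent.H.MP_b98aea_an.A

set_option autoImplicit false
open Set Metric Filter Topology

namespace Pool.Agent.H.MP_b98aea_an

abbrev LI (Γ : Type) := lp (fun _ : Γ => ℝ) ⊤

lemma dist_comp {Z : Type} [PseudoMetricSpace Z] {Q : ℕ} (p q : Fin Q → Z) (σ : Fin Q → Fin Q) :
    dist (p ∘ σ) (q ∘ σ) ≤ dist p q :=
  (dist_pi_le_iff dist_nonneg).2 fun i => dist_le_pi_dist p q (σ i)

lemma ev_le {Γ : Type} {Q : ℕ} (p q : Fin Q → LI Γ) (i : Fin Q) (γ : Γ) :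
    |p i γ - q i γ| ≤ dist p q := by
  refine le_trans ?_ (dist_le_pi_dist p q i)
  rw [dist_eq_norm]
  exact lp.norm_apply_le_norm ENNReal.top_ne_zero (p i - q i) γ

lemma dist_le_of_ev {Γ : Type} {Q : ℕ} (p q : Fin Q → LI Γ) {c : ℝ} (hc : 0 ≤ c)
    (h : ∀ i γ, |p i γ - q i γ| ≤ c) : dist p q ≤ c := by
  refine (dist_pi_le_iff hc).2 fun i => ?_
  rw [dist_eq_norm]
  exact lp.norm_le_of_forall_le hc fun γ => h i γ

lemma exists_ev {Γ : Type} (v : LI Γ) (h : Γ → ℝ) (c : ℝ) (hc : ∀ γ, |h γ - v γ| ≤ c) :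
    ∃ w : LI Γ, ∀ γ, w γ = h γ := by
  refine ⟨⟨h, memℓp_infty ⟨c + ‖v‖, ?_⟩⟩, fun _ => rfl⟩
  rintro _ ⟨γ, rfl⟩
  have h1 := lp.norm_apply_le_norm ENNReal.top_ne_zero v γ
  have h2 := hc γ
  have h3 := abs_add_le (h γ - v γ) (v γ)
  simp only [Real.norm_eq_abs, sub_add_cancel] at h1 h3 ⊢
  linarith

section core
variable {X : Type} [MetricSpace X] {Γ : Type} {Q : ℕ} (A : Set X) (g : X → Fin Q → LI Γ)
  (mt : X → X → Equiv.Perm (Fin Q)) (a0 : X → X)

noncomputable def yy (x a : X) : Fin Q → LI Γ := col (60 * infDist x A) (g a ∘ mt (a0 x) a)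

noncomputable def ff (x : X) (i : Fin Q) (γ : Γ) : ℝ :=
  sInf ((fun a => yy A g mt a0 x a i γ + 2 * KK Q * dist x a) ''
    {a | a ∈ A ∧ dist x a ≤ 6 * infDist x A})

variable {A g mt a0}
variable (hmt : ∀ a ∈ A, ∀ b ∈ A, dist (g a) (g b ∘ mt a b) ≤ dist a b)
  (ha0 : ∀ x, a0 x ∈ A ∧ dist x (a0 x) ≤ 2 * infDist x A)
include hmt ha0

lemma yy_lip {x a b : X} (hx : 0 < infDist x A) (ha : a ∈ A) (hb : b ∈ A)
    (h1 : dist x a ≤ 8 * infDist x A) (h2 : dist x b ≤ 8 * infDist x A) :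
    dist (yy A g mt a0 x a) (yy A g mt a0 x b) ≤ KK Q * dist a b := by
  have e1 : dist (g a ∘ mt (a0 x) a) (g b ∘ ⇑(mt a b * mt (a0 x) a)) ≤ dist a b :=
    (dist_comp (g a) (g b ∘ mt a b) (mt (a0 x) a)).trans (hmt a ha b hb)
  have d0 := (ha0 x).2
  have d1 := dist_triangle_left (a0 x) a x
  have d2 := dist_triangle_left (a0 x) b x
  have d3 := dist_triangle_left a b x
  have e2 := hmt _ (ha0 x).1 a ha
  have e3 := hmt _ (ha0 x).1 b hb
  have e4 := dist_triangle (g (a0 x)) (g a ∘ mt (a0 x) a) (g b ∘ ⇑(mt a b * mt (a0 x) a))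
  unfold yy
  rw [col_coh (g (a0 x)) (g b) (mt (a0 x) b) (mt a b * mt (a0 x) a) (by linarith) (by linarith)]
  exact col_lip (by linarith) (by linarith) _ _ e1 (by linarith [dist_nonneg (x := a) (y := b)])
    (by linarith [dist_nonneg (x := a) (y := b)])

lemma ff_lower {x a : X} (hx : 0 < infDist x A) (ha : a ∈ A) (h1 : dist x a ≤ 8 * infDist x A)
    (i : Fin Q) (γ : Γ) :
    |yy A g mt a0 x (a0 x) i γ - yy A g mt a0 x a i γ| ≤ KK Q * (2 * infDist x A + dist x a) := by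
  have d0 := (ha0 x).2
  refine (ev_le _ _ i γ).trans ((yy_lip hmt ha0 hx (ha0 x).1 ha (by linarith) h1).trans ?_)
  have d1 := dist_triangle_left (a0 x) a x
  have := KK_pos Q
  gcongr; linarith

lemma ff_bdd {x : X} (hx : 0 < infDist x A) (i : Fin Q) (γ : Γ) :
    ∀ t ∈ (fun a => yy A g mt a0 x a i γ + 2 * KK Q * dist x a) ''
      {a | a ∈ A ∧ dist x a ≤ 6 * infDist x A},
      yy A g mt a0 x (a0 x) i γ - 2 * KK Q * infDist x A ≤ t := by
  rintro _ ⟨a, ⟨ha, h⟩, rfl⟩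
  have h1 := (abs_le.1 (ff_lower hmt ha0 hx ha (by linarith) i γ)).2
  have h2 : 0 ≤ KK Q * dist x a := mul_nonneg (KK_pos Q).le dist_nonneg
  simp only
  linarith

lemma ff_le {x a : X} (hx : 0 < infDist x A) (ha : a ∈ A) (h1 : dist x a ≤ 8 * infDist x A)
    (i : Fin Q) (γ : Γ) :
    ff A g mt a0 x i γ ≤ yy A g mt a0 x a i γ + 2 * KK Q * dist x a := by
  have key : ∀ b ∈ A, dist x b ≤ 6 * infDist x A →
      ff A g mt a0 x i γ ≤ yy A g mt a0 x b i γ + 2 * KK Q * dist x b :=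
    fun b hb h => csInf_le ⟨_, ff_bdd hmt ha0 hx i γ⟩ ⟨b, ⟨hb, h⟩, rfl⟩
  rcases le_total (dist x a) (6 * infDist x A) with h | h
  · exact key a ha h
  · have d0 := (ha0 x).2
    have h2 := key _ (ha0 x).1 (by linarith)
    have h3 := (abs_le.1 (ff_lower hmt ha0 hx ha h1 i γ)).2
    have K0 := KK_pos Q
    have h4 : KK Q * dist x (a0 x) ≤ KK Q * (2 * infDist x A) := by gcongr
    have h5 : KK Q * (6 * infDist x A) ≤ KK Q * dist x a := by gcongr
    linarith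

omit hmt in
lemma ff_ge {x : X} (hx : 0 < infDist x A) (i : Fin Q) (γ : Γ) (c : ℝ)
    (h : ∀ a ∈ A, dist x a ≤ 6 * infDist x A →
      c ≤ yy A g mt a0 x a i γ + 2 * KK Q * dist x a) : c ≤ ff A g mt a0 x i γ := by
  refine le_csInf ⟨_, a0 x, ⟨(ha0 x).1, by linarith [(ha0 x).2]⟩, rfl⟩ ?_
  rintro _ ⟨a, ⟨ha, h'⟩, rfl⟩
  exact h a ha h'

lemma ff_near {x : X} (hx : 0 < infDist x A) (i : Fin Q) (γ : Γ) :
    |ff A g mt a0 x i γ - g (a0 x) i γ| ≤ (4 * KK Q + 120 * Q) * infDist x A := by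
  have d0 := (ha0 x).2
  have K0 := KK_pos Q
  have h1 := ff_le hmt ha0 hx (ha0 x).1 (by linarith) i γ
  have h2 := ff_ge (g := g) (mt := mt) ha0 hx i γ _
    (fun a ha h => ff_bdd hmt ha0 hx i γ _ ⟨a, ⟨ha, h⟩, rfl⟩)
  have h3 := hmt _ (ha0 x).1 _ (ha0 x).1
  rw [dist_self] at h3
  have h4 := col_near (s := 60 * infDist x A) (by linarith) (g (a0 x) ∘ mt (a0 x) (a0 x))
  have h5 := dist_triangle_right (yy A g mt a0 x (a0 x)) (g (a0 x)) (g (a0 x) ∘ mt (a0 x) (a0 x))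
  have h6 := ev_le (yy A g mt a0 x (a0 x)) (g (a0 x)) i γ
  have h7 : KK Q * dist x (a0 x) ≤ KK Q * (2 * infDist x A) := by gcongr
  have h8 : 0 ≤ KK Q * infDist x A := by positivity
  unfold yy at h5
  unfold yy at h6 h1 h2
  rw [abs_le] at h6 ⊢
  constructor <;> linarith [h6.1, h6.2]

lemma ff_cmp {x y : X} (hx : 0 < infDist x A) (hy : 0 < infDist y A)
    (h1 : 4 * dist x y ≤ infDist x A) (π : Equiv.Perm (Fin Q))
    (hπ : dist (g (a0 x)) (g (a0 y) ∘ π) ≤ dist (a0 x) (a0 y)) (i : Fin Q) (γ : Γ) :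
    ff A g mt a0 x i γ ≤ ff A g mt a0 y (π i) γ + 62 * KK Q * dist x y := by
  have r1 : infDist x A ≤ infDist y A + dist x y := infDist_le_infDist_add_dist
  have r2 : infDist y A ≤ infDist x A + dist y x := infDist_le_infDist_add_dist
  rw [dist_comm y x] at r2
  have ε0 : 0 ≤ dist x y := dist_nonneg
  have K0 := KK_pos Q
  rw [← sub_le_iff_le_add]
  refine ff_ge ha0 hy _ _ _ fun a ha h => ?_
  have d1 := dist_triangle x y a
  have h2 := ff_le hmt ha0 hx ha (by linarith) i γ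
  have dx := (ha0 x).2
  have dy := (ha0 y).2
  have d2 := dist_triangle_left (a0 x) a x
  have d3 := dist_triangle_left (a0 y) a y
  have d4 := dist_triangle4 (a0 x) x y (a0 y)
  rw [dist_comm (a0 x) x] at d4
  have e1 := hmt _ (ha0 x).1 a ha
  have e2 : dist (g (a0 y) ∘ π) (g a ∘ ⇑(mt (a0 y) a * π)) ≤ dist (a0 y) a :=
    (dist_comp (g (a0 y)) (g a ∘ mt (a0 y) a) π).trans (hmt _ (ha0 y).1 a ha)
  have e3 := dist_triangle (g (a0 x)) (g (a0 y) ∘ π) (g a ∘ ⇑(mt (a0 y) a * π))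
  have e4 : yy A g mt a0 x a = col (60 * infDist x A) (g a ∘ mt (a0 y) a) ∘ π := by
    unfold yy
    rw [col_coh (g (a0 x)) (g a) (mt (a0 x) a) (mt (a0 y) a * π) (by linarith) (by linarith),
      ← col_perm]
    rfl
  have e5 := col_lip (s := 60 * infDist x A) (t := 60 * infDist y A) (ε := 60 * dist x y)
    (by linarith) (by linarith) (g a ∘ mt (a0 y) a) (g a ∘ mt (a0 y) a)
    (by rw [dist_self]; linarith) (by linarith) (by linarith)
  have e6 := (abs_le.1 ((ev_le _ _ (π i) γ).trans e5)).2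
  have e7 : yy A g mt a0 x a i γ = col (60 * infDist x A) (g a ∘ mt (a0 y) a) (π i) γ := by
    rw [e4]; rfl
  have e8 : KK Q * dist x a ≤ KK Q * (dist x y + dist y a) := by gcongr
  rw [e7] at h2
  unfold yy
  linarith

end core

noncomputable def CC (Q : ℕ) : ℝ := 62 * KK Q + 10 * (4 * KK Q + 120 * Q) + 21

lemma core_closed {X : Type} [MetricSpace X] {Γ : Type} {Q : ℕ} (A : Set X) (hA : IsClosed A)
    (hne : A.Nonempty) (g : X → Fin Q → LI Γ)
    (h : ∀ a ∈ A, ∀ b ∈ A, ∃ σ : Equiv.Perm (Fin Q), dist (g a) (g b ∘ σ) ≤ dist a b) :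
    ∃ F : X → Fin Q → LI Γ, (∀ a ∈ A, F a = g a) ∧
      ∀ x y, ∃ σ : Equiv.Perm (Fin Q), dist (F x) (F y ∘ σ) ≤ CC Q * dist x y := by
  classical
  choose! mt hmt using h
  have ex : ∀ x, ∃ a, a ∈ A ∧ dist x a ≤ 2 * infDist x A := by
    intro x
    rcases (infDist_nonneg (x := x) (s := A)).eq_or_lt with h | h
    · exact ⟨x, (hA.mem_iff_infDist_zero hne).2 h.symm, by rw [← h]; simp⟩
    · obtain ⟨a, ha, h'⟩ := (infDist_lt_iff hne).1 (show infDist x A < 2 * infDist x A by linarith)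
      exact ⟨a, ha, h'.le⟩
  choose a0 ha0 using fun x => ex x
  have ha0' : ∀ x, a0 x ∈ A ∧ dist x (a0 x) ≤ 2 * infDist x A := ha0
  have exw : ∀ x i, ∃ w : LI Γ, 0 < infDist x A → ∀ γ, w γ = ff A g mt a0 x i γ := by
    intro x i
    by_cases hx : 0 < infDist x A
    · obtain ⟨w, hw⟩ := exists_ev _ _ _ (ff_near hmt ha0' hx i)
      exact ⟨w, fun _ => hw⟩
    · exact ⟨0, fun h => absurd h hx⟩
  choose w hw using exw
  have K0 := KK_pos Q
  obtain ⟨F, hF⟩ : ∃ F : X → Fin Q → LI Γ, F = fun x => if 0 < infDist x A then w x else g x :=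
    ⟨_, rfl⟩
  have F1 : ∀ x, 0 < infDist x A → ∀ i γ, F x i γ = ff A g mt a0 x i γ := by
    intro x hx i γ
    rw [hF]; simp only [if_pos hx]; exact hw x i hx γ
  have F2 : ∀ x, ¬ 0 < infDist x A → F x = g x := by
    intro x hx
    rw [hF]; simp only [if_neg hx]
  have near : ∀ x, dist (F x) (g (a0 x)) ≤ (4 * KK Q + 120 * Q) * infDist x A := by
    intro x
    by_cases hx : 0 < infDist x A
    · refine dist_le_of_ev _ _ (by positivity) fun i γ => ?_
      rw [F1 x hx]; exact ff_near hmt ha0' hx i γ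
    · have h0 : infDist x A = 0 := le_antisymm (not_lt.1 hx) infDist_nonneg
      have h1 := (ha0 x).2
      rw [h0, mul_zero] at h1
      rw [F2 x hx, h0, ← dist_le_zero.1 h1]; simp
  refine ⟨F, fun a ha => F2 a (by rw [infDist_zero_of_mem ha]; simp), fun x y => ?_⟩
  have ε0 : 0 ≤ dist x y := dist_nonneg
  have D0 : 0 ≤ (4 * KK Q + 120 * Q) := by positivity
  by_cases hxy : x = y
  · exact ⟨1, by simp [hxy]⟩
  have εp : 0 < dist x y := dist_pos.2 hxy
  refine ⟨mt (a0 x) (a0 y), ?_⟩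
  have hπ := hmt _ (ha0 x).1 _ (ha0 y).1
  by_cases hc : 4 * dist x y ≤ infDist x A ∧ 4 * dist x y ≤ infDist y A
  · have hx : 0 < infDist x A := by linarith [hc.1]
    have hy : 0 < infDist y A := by linarith [hc.2]
    refine (dist_le_of_ev (c := 62 * KK Q * dist x y) _ _ (by positivity) fun i γ => ?_).trans ?_
    · have c1 := ff_cmp hmt ha0' hx hy hc.1 _ hπ i γ
      have c2 := ff_cmp hmt ha0' hy hx (by rw [dist_comm]; exact hc.2) (mt (a0 x) (a0 y)).symm (by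
        have := dist_comp (g (a0 x)) (g (a0 y) ∘ mt (a0 x) (a0 y)) (mt (a0 x) (a0 y)).symm
        rw [Function.comp_assoc, Equiv.self_comp_symm, Function.comp_id, dist_comm] at this
        rw [dist_comm (a0 y)]
        exact this.trans hπ) (mt (a0 x) (a0 y) i) γ
      rw [Equiv.symm_apply_apply, dist_comm y x] at c2
      rw [Function.comp_apply, F1 x hx, F1 y hy, abs_le]
      constructor <;> linarith
    · unfold CC
      nlinarith
  · have r1 : infDist x A ≤ infDist y A + dist x y := infDist_le_infDist_add_dist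
    have r2 : infDist y A ≤ infDist x A + dist y x := infDist_le_infDist_add_dist
    rw [dist_comm y x] at r2
    have s1 : infDist x A ≤ 5 * dist x y ∧ infDist y A ≤ 5 * dist x y := by
      rw [not_and_or, not_le, not_le] at hc
      rcases hc with h | h <;> constructor <;> linarith
    have t1 := dist_triangle4 (F x) (g (a0 x)) (g (a0 y) ∘ mt (a0 x) (a0 y))
      (F y ∘ mt (a0 x) (a0 y))
    have t2 := dist_comp (g (a0 y)) (F y) (mt (a0 x) (a0 y))
    rw [dist_comm (g (a0 y))] at t2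
    have t3 := near x
    have t4 := near y
    have t5 := dist_triangle4 (a0 x) x y (a0 y)
    rw [dist_comm (a0 x) x] at t5
    have t6 := (ha0 x).2
    have t7 := (ha0 y).2
    have t8 := mul_le_mul_of_nonneg_left s1.1 D0
    have t9 := mul_le_mul_of_nonneg_left s1.2 D0
    have t10 : 0 ≤ KK Q * dist x y := by positivity
    unfold CC
    linarith [s1.1, s1.2]

lemma to_closure {X Z : Type} [MetricSpace X] [MetricSpace Z] [CompleteSpace Z] {Q : ℕ}
    (A : Set X) (g : X → Fin Q → Z)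
    (h : ∀ a ∈ A, ∀ b ∈ A, ∃ σ : Equiv.Perm (Fin Q), dist (g a) (g b ∘ σ) ≤ dist a b) :
    ∃ G : X → Fin Q → Z, (∀ a ∈ A, G a = g a) ∧ ∀ a ∈ closure A, ∀ b ∈ closure A,
      ∃ σ : Equiv.Perm (Fin Q), dist (G a) (G b ∘ σ) ≤ dist a b := by
  classical
  have ex : ∀ x, ∃ p : Fin Q → Z, (x ∈ A → p = g x) ∧ (x ∈ closure A → ∀ ε > 0, ∃ a ∈ A,
      ∃ σ : Equiv.Perm (Fin Q), dist x a < ε ∧ dist p (g a ∘ σ) < ε) := by
    intro x
    by_cases hx : x ∈ A
    · exact ⟨g x, fun _ => rfl, fun _ ε hε => ⟨x, hx, 1, by simpa using hε, by simpa using hε⟩⟩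
    by_cases hx' : x ∈ closure A
    swap
    · exact ⟨g x, fun _ => rfl, fun h => absurd h hx'⟩
    choose! mt hmt using h
    choose u hu hd using fun n : ℕ => Metric.mem_closure_iff.1 hx' ((1 / 2 : ℝ) ^ n) (by positivity)
    let τ : ℕ → Equiv.Perm (Fin Q) := fun n => Nat.rec 1 (fun k t => mt (u k) (u (k + 1)) * t) n
    have hc : CauchySeq fun n => g (u n) ∘ τ n := by
      refine cauchySeq_of_le_geometric (1 / 2) 2 (by norm_num) fun n => ?_
      have h1 : dist (g (u n) ∘ τ n) (g (u (n + 1)) ∘ τ (n + 1)) ≤ dist (u n) (u (n + 1)) :=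
        (dist_comp (g (u n)) (g (u (n + 1)) ∘ mt (u n) (u (n + 1))) (τ n)).trans
          (hmt _ (hu n) _ (hu (n + 1)))
      have h2 := dist_triangle_left (u n) (u (n + 1)) x
      have h3 := hd n
      have h4 := hd (n + 1)
      rw [pow_succ] at h4
      have h5 : (0 : ℝ) < (1 / 2) ^ n := by positivity
      linarith
    obtain ⟨p, hp⟩ := cauchySeq_tendsto_of_complete hc
    refine ⟨p, fun h => absurd h hx, fun _ ε hε => ?_⟩
    have e1 := (Metric.tendsto_nhds.1 hp) ε hε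
    have e2 := (tendsto_pow_atTop_nhds_zero_of_lt_one (r := (1 / 2 : ℝ)) (by norm_num)
      (by norm_num)).eventually (gt_mem_nhds hε)
    obtain ⟨n, h1, h2⟩ := (e1.and e2).exists
    exact ⟨u n, hu n, τ n, (hd n).trans h2, by rwa [dist_comm]⟩
  choose G G1 G2 using ex
  refine ⟨G, G1, fun x hx y hy => ?_⟩
  obtain ⟨σ, hσ⟩ := Finite.exists_min fun σ : Equiv.Perm (Fin Q) => dist (G x) (G y ∘ σ)
  refine ⟨σ, le_of_forall_pos_le_add fun ε hε => ?_⟩
  obtain ⟨a, ha, s, a1, a2⟩ := G2 x hx (ε / 4) (by positivity)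
  obtain ⟨b, hb, t, b1, b2⟩ := G2 y hy (ε / 4) (by positivity)
  obtain ⟨m, hm⟩ := h a ha b hb
  refine (hσ (t⁻¹ * m * s)).trans ?_
  have c1 : dist (g a ∘ s) (g b ∘ ⇑(m * s)) ≤ dist a b := (dist_comp (g a) (g b ∘ m) s).trans hm
  have c2 := dist_comp (G y) (g b ∘ t) (t⁻¹ * m * s : Equiv.Perm (Fin Q))
  have c3 : (g b ∘ t) ∘ (t⁻¹ * m * s : Equiv.Perm (Fin Q)) = g b ∘ (m * s : Equiv.Perm (Fin Q)) := by
    funext i; simp
  rw [c3, dist_comm] at c2
  have c4 := dist_triangle4 (G x) (g a ∘ s) (g b ∘ (m * s : Equiv.Perm (Fin Q)))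
    (G y ∘ (t⁻¹ * m * s : Equiv.Perm (Fin Q)))
  have c5 := dist_triangle4 a x y b
  rw [dist_comm a x] at c5
  linarith

lemma core {X : Type} [MetricSpace X] {Γ : Type} {Q : ℕ} (A : Set X)
    (hne : A.Nonempty) (g : X → Fin Q → LI Γ) (L : ℝ) (hL : 0 < L)
    (h : ∀ a ∈ A, ∀ b ∈ A, ∃ σ : Equiv.Perm (Fin Q), dist (g a) (g b ∘ σ) ≤ L * dist a b) :
    ∃ F : X → Fin Q → LI Γ, (∀ a ∈ A, F a = g a) ∧
      ∀ x y, ∃ σ : Equiv.Perm (Fin Q), dist (F x) (F y ∘ σ) ≤ CC Q * L * dist x y := by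
  obtain ⟨G, G1, G2⟩ := to_closure A (fun x => L⁻¹ • g x) (fun a ha b hb => by
    obtain ⟨σ, hσ⟩ := h a ha b hb
    refine ⟨σ, ?_⟩
    have e : (L⁻¹ • g b) ∘ σ = L⁻¹ • (g b ∘ σ) := rfl
    rw [e, dist_smul₀, Real.norm_of_nonneg (inv_nonneg.2 hL.le), inv_mul_le_iff₀ hL]
    exact hσ)
  obtain ⟨F, F1, F2⟩ := core_closed (closure A) isClosed_closure hne.closure G G2
  refine ⟨fun x => L • F x, fun a ha => ?_, fun x y => ?_⟩
  · simp only [F1 a (subset_closure ha), G1 a ha, smul_inv_smul₀ hL.ne']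
  · obtain ⟨σ, hσ⟩ := F2 x y
    refine ⟨σ, ?_⟩
    have e : (L • F y) ∘ σ = L • (F y ∘ σ) := rfl
    simp only
    rw [e, dist_smul₀, Real.norm_of_nonneg hL.le]
    calc L * dist (F x) (F y ∘ σ) ≤ L * (CC Q * dist x y) := by gcongr
      _ = _ := by ring

lemma embed (Y : Type) [MetricSpace Y] (y0 : Y) : ∃ ι : Y → LI Y, Isometry ι := by
  have ex : ∀ y : Y, ∃ w : LI Y, ∀ γ, w γ = dist y γ - dist y0 γ := fun y =>
    exists_ev 0 _ (dist y y0) fun γ => by simpa using abs_dist_sub_le y y0 γ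
  choose ι hι using ex
  refine ⟨ι, Isometry.of_dist_eq fun a b => le_antisymm ?_ ?_⟩
  · rw [dist_eq_norm]
    refine lp.norm_le_of_forall_le dist_nonneg fun γ => ?_
    have := abs_dist_sub_le a b γ
    simpa [hι] using this
  · have := lp.norm_apply_le_norm ENNReal.top_ne_zero (ι a - ι b) b
    rw [dist_eq_norm (ι a)]
    simpa [hι] using this

lemma sup_eq {Z : Type} [MetricSpace Z] {Q : ℕ} (p q : Fin Q → Z) (σ : Equiv.Perm (Fin Q)) :
    ⨆ j : Fin Q, dist (p j) (q (σ j)) = dist p (q ∘ σ) := by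
  refine le_antisymm (Real.iSup_le (fun j => dist_le_pi_dist p (q ∘ σ) j) dist_nonneg) ?_
  refine (dist_pi_le_iff (Real.iSup_nonneg fun j => dist_nonneg)).2 fun j => ?_
  exact le_ciSup (f := fun j => dist (p j) (q (σ j))) (Finite.bddAbove_range _) j

lemma inf_le_iff {Z : Type} [MetricSpace Z] {Q : ℕ} (p q : Fin Q → Z) (c : ℝ) :
    (⨅ σ : Equiv.Perm (Fin Q), ⨆ j : Fin Q, dist (p j) (q (σ j))) ≤ c ↔
      ∃ σ : Equiv.Perm (Fin Q), dist p (q ∘ σ) ≤ c := by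
  simp_rw [sup_eq]
  constructor
  · intro h
    obtain ⟨σ, hσ⟩ := Finite.exists_min fun σ : Equiv.Perm (Fin Q) => dist p (q ∘ σ)
    exact ⟨σ, (le_ciInf hσ).trans h⟩
  · rintro ⟨σ, h⟩
    exact (ciInf_le (Finite.bddBelow_range _) σ).trans h

lemma inf_self {Z : Type} [MetricSpace Z] {Q : ℕ} (p : Fin Q → Z) :
    (⨅ σ : Equiv.Perm (Fin Q), ⨆ j : Fin Q, dist (p j) (p (σ j))) = 0 :=
  le_antisymm ((inf_le_iff p p 0).2 ⟨1, by simp⟩)
    (Real.iInf_nonneg fun _ => Real.iSup_nonneg fun _ => dist_nonneg)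

end Pool.Agent.H.MP_b98aea_an
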